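import Mathlib
import Pool.Agent.H16.Team2

set_option autoImplicit false

namespace Pool.Agent.Results.MP_0f5321_co.No

open Pool.Agent.H16.Team

theorem result : ¬ ∃ F : Set (Finset C), F.Infinite ∧ (∀ P ∈ F, Pool.Agent.H16.Team.Poly P) ∧
    (∀ P ∈ F, ∀ Q ∈ F, Anc P Q → P = Q) ∧ Winner F :=
  fun ⟨F, h1, h2, h3, h4⟩ => main F h1 h2 h3 h4

end Pool.Agent.Results.MP_0f5321_co.No
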